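import Pool.Agent.helper41.HFE.SpecD

/-! # Row hfe:GN3 (MP_3221a1_ag, project HFE): the bad numbers are finitely many -/

set_option autoImplicit false

open Polynomial Module Pool.Agent.HFN

namespace Pool.Agent.HFE

noncomputable section

theorem GN3_zero {g g' : AA} (h : Associated g g') (z : ℂ × ℂ) (hz : ev z g' = 0) : ev z g = 0 := by
  obtain ⟨u, hu⟩ := h.symm
  rw [← hu, ev_mul, hz, zero_mul]

/-- the bad numbers for a fixed set of points and a fixed bidegree -/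
theorem GN3_one (hGN1 : GN1_stmt) (hGN2 : GN2_stmt) (b : ℕ) (hb : 1 ≤ b) (ζ : Fin b → ℂ) (hζ : ∀ s, ζ s ^ b = 1) (n : ℕ)
    (t : Fin n → ℂ) (S : Finset (ℂ × ℂ)) (p q : ℕ) :
    {τ : ℂ | ∃ g : AA, Irreducible g ∧ 1 ≤ dX g ∧ 1 ≤ dY g ∧ ¬ Associated g (g0 b) ∧ dX g = p ∧ dY g = q ∧
      (∀ z ∈ S, ev z g = 0) ∧ 2 * (p * q) < S.card ∧
      ((∃ m' s, ev (τ ^ b, ζ s * t m') g = 0) ∨ (∃ m s, ev (t m ^ b, ζ s * τ) g = 0) ∨ ∃ s, ev (τ ^ b, ζ s * τ) g = 0)}.Finite := by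
  by_cases hex : ∃ g : AA, Irreducible g ∧ 1 ≤ dX g ∧ 1 ≤ dY g ∧ ¬ Associated g (g0 b) ∧ dX g = p ∧ dY g = q ∧
      (∀ z ∈ S, ev z g = 0) ∧ 2 * (p * q) < S.card
  · obtain ⟨g₁, a1, a2, a3, a4, a5, a6, a7, a8⟩ := hex
    refine Set.Finite.subset (((Set.finite_iUnion fun m' : Fin n => Set.finite_iUnion fun s : Fin b =>
      (hGN1 g₁ b a1 a2 a3 hb a4 (ζ s) (hζ s)).1 (ζ s * t m'))).union
      ((Set.finite_iUnion fun m : Fin n => Set.finite_iUnion fun s : Fin b =>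
        (hGN1 g₁ b a1 a2 a3 hb a4 (ζ s) (hζ s)).2.1 (t m ^ b)).union
      (Set.finite_iUnion fun s : Fin b => (hGN1 g₁ b a1 a2 a3 hb a4 (ζ s) (hζ s)).2.2))) ?_
    rintro τ ⟨g, c1, c2, c3, c4, c5, c6, c7, c8, c9⟩
    have hA : Associated g₁ g := hGN2 g₁ g a1 c1 (c5.trans a5.symm) (c6.trans a6.symm) S (fun z hz => ⟨a7 z hz, c7 z hz⟩)
      (by rw [a5, a6]; exact a8)
    rcases c9 with ⟨m', s, h⟩ | ⟨m, s, h⟩ | ⟨s, h⟩
    · exact Or.inl (Set.mem_iUnion.2 ⟨m', Set.mem_iUnion.2 ⟨s, GN3_zero hA _ h⟩⟩)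
    · exact Or.inr (Or.inl (Set.mem_iUnion.2 ⟨m, Set.mem_iUnion.2 ⟨s, GN3_zero hA _ h⟩⟩))
    · exact Or.inr (Or.inr (Set.mem_iUnion.2 ⟨s, GN3_zero hA _ h⟩))
  · refine Set.Finite.subset Set.finite_empty ?_
    rintro τ ⟨g, c1, c2, c3, c4, c5, c6, c7, c8, -⟩
    exact absurd ⟨g, c1, c2, c3, c4, c5, c6, c7, c8⟩ hex

theorem GN3 (hGN1 : GN1_stmt) (hGN2 : GN2_stmt) : GN3_stmt := by
  classical
  intro b hb ζ hζ n t
  obtain ⟨Q, hQ⟩ : ∃ Q : Finset (ℂ × ℂ), Q = Finset.univ.image fun x : Fin n × Fin n × Fin b => ((t x.1 ^ b, ζ x.2.2 * t x.2.1) : ℂ × ℂ) :=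
    ⟨_, rfl⟩
  refine Set.Finite.subset (Set.Finite.biUnion (Q.powerset ×ˢ (Finset.range (Q.card + 1) ×ˢ Finset.range (Q.card + 1))).finite_toSet
    fun x _ => GN3_one hGN1 hGN2 b hb ζ hζ n t x.1 x.2.1 x.2.2) ?_
  rintro τ ⟨g, c1, c2, c3, c4, ⟨S, hS, hc⟩, c5⟩
  have hSQ : S ⊆ Q := by
    intro z hz
    obtain ⟨-, m, m', s, h⟩ := hS z hz
    rw [hQ, Finset.mem_image]
    exact ⟨(m, m', s), Finset.mem_univ _, h.symm⟩
  have hcard := Finset.card_le_card hSQ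
  have hp : dX g ≤ dX g * dY g := Nat.le_mul_of_pos_right _ c3
  have hq : dY g ≤ dX g * dY g := Nat.le_mul_of_pos_left _ c2
  refine Set.mem_biUnion (x := (S, dX g, dY g)) ?_ ⟨g, c1, c2, c3, c4, rfl, rfl, fun z hz => (hS z hz).1, hc, c5⟩
  rw [Finset.mem_coe, Finset.mem_product, Finset.mem_product, Finset.mem_powerset, Finset.mem_range, Finset.mem_range]
  exact ⟨hSQ, by simp only []; omega, by simp only []; omega⟩

end

end Pool.Agent.HFE
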